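import Pool.Agent.helper72.ODK.Spec

/-!
# Row CEW of project ODK: a lower bound for the central binomial coefficient
-/

set_option autoImplicit false

namespace Pool.Agent.helper72.UP

open Finset

theorem CEW_nat (m : ℕ) (hm : 1 ≤ m) : 16 ^ m ≤ 4 * m * (Nat.centralBinom m) ^ 2 := by
  induction m, hm using Nat.le_induction with
  | base => simp [Nat.centralBinom]
  | succ m hm ih =>
    have h := Nat.succ_mul_centralBinom_succ m
    have h3 : 16 * (m + 1) * (4 * m * (Nat.centralBinom m) ^ 2) ≤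
        16 * (2 * m + 1) ^ 2 * (Nat.centralBinom m) ^ 2 := by
      have : 16 * (m + 1) * (4 * m * (Nat.centralBinom m) ^ 2) + 16 * (Nat.centralBinom m) ^ 2 =
          16 * (2 * m + 1) ^ 2 * (Nat.centralBinom m) ^ 2 := by ring
      omega
    have h2 : (m + 1) * 16 ^ (m + 1) ≤ (m + 1) * (4 * (m + 1) * (Nat.centralBinom (m + 1)) ^ 2) := by
      calc (m + 1) * 16 ^ (m + 1) = 16 * (m + 1) * 16 ^ m := by ring
        _ ≤ 16 * (m + 1) * (4 * m * (Nat.centralBinom m) ^ 2) := Nat.mul_le_mul_left _ ih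
        _ ≤ 16 * (2 * m + 1) ^ 2 * (Nat.centralBinom m) ^ 2 := h3
        _ = 4 * (2 * (2 * m + 1) * Nat.centralBinom m) ^ 2 := by ring
        _ = 4 * ((m + 1) * Nat.centralBinom (m + 1)) ^ 2 := by rw [h]
        _ = (m + 1) * (4 * (m + 1) * (Nat.centralBinom (m + 1)) ^ 2) := by ring
    exact Nat.le_of_mul_le_mul_left h2 (Nat.succ_pos m)

theorem CEW_real (m : ℕ) (hm : 1 ≤ m) : (4 : ℝ) ^ m ≤ 2 * Real.sqrt m * Nat.centralBinom m := by
  have h : ((16 ^ m : ℕ) : ℝ) ≤ ((4 * m * (Nat.centralBinom m) ^ 2 : ℕ) : ℝ) := by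
    exact_mod_cast CEW_nat m hm
  push_cast at h
  have h1 : ((4 : ℝ) ^ m) ^ 2 ≤ (2 * Real.sqrt m * Nat.centralBinom m) ^ 2 := by
    rw [mul_pow, mul_pow, Real.sq_sqrt (Nat.cast_nonneg m), ← pow_mul, mul_comm m 2, pow_mul]
    norm_num
    linarith
  exact (pow_le_pow_iff_left₀ (by positivity) (by positivity) two_ne_zero).1 h1

/-- Row CEW. -/
theorem CEW : CEW_stmt := by
  intro a ha
  obtain ⟨m, rfl | rfl⟩ := Nat.even_or_odd' a
  · have e1 : 2 * m / 2 = m := by omega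
    have hm : 1 ≤ m := by omega
    rw [e1, ← Nat.centralBinom_eq_two_mul_choose, pow_mul]
    have h1 := CEW_real m hm
    have h2 : Real.sqrt (m : ℝ) ≤ Real.sqrt ((2 * m : ℕ) : ℝ) := by
      apply Real.sqrt_le_sqrt
      push_cast
      have : (0 : ℝ) ≤ (m : ℝ) := Nat.cast_nonneg m
      linarith
    have h3 : (0 : ℝ) ≤ (Nat.centralBinom m : ℝ) := Nat.cast_nonneg _
    have h4 : ((2 : ℝ) ^ 2) ^ m = 4 ^ m := by norm_num
    rw [h4]
    refine le_trans h1 ?_
    exact mul_le_mul_of_nonneg_right (by linarith) h3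
  · have e1 : (2 * m + 1) / 2 = m := by omega
    rw [e1]
    have h1 := CEW_real (m + 1) (by omega)
    have h2 : Nat.centralBinom (m + 1) = 2 * (2 * m + 1).choose m := by
      rw [Nat.centralBinom_eq_two_mul_choose, show 2 * (m + 1) = (2 * m + 1) + 1 by ring,
        Nat.choose_succ_succ, Nat.choose_symm_half]
      ring
    have h3 : Real.sqrt ((m + 1 : ℕ) : ℝ) ≤ Real.sqrt ((2 * m + 1 : ℕ) : ℝ) := by
      apply Real.sqrt_le_sqrt
      push_cast
      have : (0 : ℝ) ≤ (m : ℝ) := Nat.cast_nonneg m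
      linarith
    have h4 : (0 : ℝ) ≤ ((2 * m + 1).choose m : ℝ) := Nat.cast_nonneg _
    have h5 : (4 : ℝ) ^ (m + 1) = 2 * 2 ^ (2 * m + 1) := by
      rw [show (4 : ℝ) = 2 ^ 2 by norm_num, ← pow_mul]
      ring
    rw [h2, h5] at h1
    have h1' : 2 * (2 : ℝ) ^ (2 * m + 1) ≤
        2 * Real.sqrt ((m + 1 : ℕ) : ℝ) * (2 * ((2 * m + 1).choose m : ℝ)) := by
      have e : ((2 * (2 * m + 1).choose m : ℕ) : ℝ) = 2 * ((2 * m + 1).choose m : ℝ) := by
        push_cast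
        ring
      rw [e] at h1
      exact h1
    have h6 : 2 * Real.sqrt ((m + 1 : ℕ) : ℝ) * ((2 * m + 1).choose m : ℝ) ≤
        2 * Real.sqrt ((2 * m + 1 : ℕ) : ℝ) * ((2 * m + 1).choose m : ℝ) :=
      mul_le_mul_of_nonneg_right (by linarith) h4
    linarith

end Pool.Agent.helper72.UP
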